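import Mathlib

set_option autoImplicit false

namespace Pool.Agent.Helper55.SignChangesAux

open Finset

/-- The set `A_{p,q} = {p^α q^β : α, β ∈ ℕ}`. -/
def A (p q : ℕ) : Set ℕ := {a | ∃ α β : ℕ, a = p ^ α * q ^ β}

/-- The number of finite subsets of `B` with sum `n`. -/
noncomputable def cnt (B : Set ℕ) (n : ℕ) : ℕ :=
  Set.ncard {S : Finset ℕ | (S : Set ℕ) ⊆ B ∧ ∑ s ∈ S, s = n}

section gen

variable {𝕜 : Type*} [NormedField 𝕜] [CompleteSpace 𝕜]

/-- generating product -/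
noncomputable def Phi (B : Set ℕ) (x : 𝕜) : 𝕜 := ∏' a : ℕ, (1 + B.indicator (fun a => x ^ a) a)

omit [CompleteSpace 𝕜] in
lemma summ (B : Set ℕ) {x : 𝕜} (hx : ‖x‖ < 1) :
    Summable (fun a => ‖B.indicator (fun a => x ^ a) a‖) := by
  have h := summable_geometric_of_lt_one (norm_nonneg x) hx
  refine Summable.of_nonneg_of_le (fun _ => norm_nonneg _) (fun a => ?_) h
  by_cases ha : a ∈ B
  · simp [ha]
  · simp [ha]

lemma mult (B : Set ℕ) {x : 𝕜} (hx : ‖x‖ < 1) :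
    Multipliable (fun a => (1 + B.indicator (fun a => x ^ a) a : 𝕜)) :=
  multipliable_one_add_of_summable (summ B hx)

lemma hasSum_finset (B : Set ℕ) {x : 𝕜} (hx : ‖x‖ < 1) :
    HasSum (fun S : Finset ℕ => ∏ a ∈ S, B.indicator (fun a => x ^ a) a) (Phi B x) := by
  have h : Summable (fun S : Finset ℕ => ∏ a ∈ S, B.indicator (fun a => x ^ a) a) :=
    summable_finsetProd_of_summable_norm (summ B hx)
  have h2 : Phi B x = ∑' S : Finset ℕ, ∏ a ∈ S, B.indicator (fun a => x ^ a) a :=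
    tprod_one_add h
  rw [h2]
  exact h.hasSum

omit [CompleteSpace 𝕜] in
lemma prod_ind (B : Set ℕ) (x : 𝕜) (S : Finset ℕ) [Decidable ((S : Set ℕ) ⊆ B)] :
    ∏ a ∈ S, B.indicator (fun a => x ^ a) a =
      if (S : Set ℕ) ⊆ B then x ^ (∑ s ∈ S, s) else 0 := by
  split_ifs with h
  · rw [← Finset.prod_pow_eq_pow_sum]
    refine Finset.prod_congr rfl (fun a ha => ?_)
    rw [Set.indicator_of_mem (h ha)]
  · rw [Set.not_subset] at h
    obtain ⟨a, ha, hb⟩ := h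
    exact Finset.prod_eq_zero (i := a) (by exact_mod_cast ha) (by simp [hb])

lemma finite_sum_eq (n : ℕ) : {S : Finset ℕ | ∑ s ∈ S, s = n}.Finite := by
  refine ((Finset.range (n + 1)).powerset.finite_toSet).subset (fun S hS => ?_)
  simp only [Set.mem_ofPred_eq] at hS
  simp only [Finset.coe_powerset, Set.mem_preimage, Set.mem_powerset_iff]
  intro a ha
  have : a ≤ ∑ s ∈ S, s := Finset.single_le_sum (f := fun s => s) (fun _ _ => Nat.zero_le _) ha
  simp only [Finset.coe_range, Set.mem_Iio]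
  omega

lemma finite_cnt (B : Set ℕ) (n : ℕ) : {S : Finset ℕ | (S : Set ℕ) ⊆ B ∧ ∑ s ∈ S, s = n}.Finite :=
  (finite_sum_eq n).subset (fun _ h => h.2)

lemma hasSum_cnt (B : Set ℕ) {x : 𝕜} (hx : ‖x‖ < 1) :
    HasSum (fun n => (cnt B n : 𝕜) * x ^ n) (Phi B x) := by
  classical
  have h := (hasSum_finset B hx).tsum_fiberwise (fun S : Finset ℕ => ∑ s ∈ S, s)
  convert! h using 1
  funext n
  have hfin := finite_cnt B n
  rw [tsum_subtype ((fun S : Finset ℕ => ∑ s ∈ S, s) ⁻¹' {n})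
    (fun S => ∏ a ∈ S, B.indicator (fun a => x ^ a) a)]
  rw [tsum_eq_sum (s := hfin.toFinset)]
  · rw [cnt, Set.ncard_eq_toFinset_card _ hfin, ← nsmul_eq_mul, ← Finset.sum_const]
    refine Finset.sum_congr rfl (fun S hS => ?_)
    rw [Set.Finite.mem_toFinset] at hS
    rw [Set.indicator_of_mem (by simpa using hS.2), prod_ind, if_pos hS.1, hS.2]
  · intro S hS
    rw [Set.Finite.mem_toFinset] at hS
    by_cases h1 : ∑ s ∈ S, s = n
    · rw [Set.indicator_of_mem (by simpa using h1), prod_ind, if_neg]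
      intro h2
      exact hS ⟨h2, h1⟩
    · rw [Set.indicator_of_notMem (by simpa using h1)]

end gen


lemma main_ineq (B : Set ℕ) (N0 : ℕ) (hm : ∀ n ≥ N0, cnt B n ≤ cnt B (n + 1)) :
    ∃ C : ℝ, 0 ≤ C ∧ ∀ x : ℂ, ‖x‖ < 1 →
      ‖1 - x‖ * ‖Phi B x‖ ≤ (1 - ‖x‖) * Phi B (‖x‖ : ℝ) + C := by
  set d : ℕ → ℝ := fun n => (cnt B (n + 1) : ℝ) - cnt B n with hd
  refine ⟨∑ n ∈ Finset.range N0, 2 * |d n|,
    Finset.sum_nonneg (fun _ _ => by positivity), fun x hx => ?_⟩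
  have hr : ‖(‖x‖ : ℝ)‖ < 1 := by simpa using hx
  have aux : ∀ {𝕜 : Type} [NormedField 𝕜] [CompleteSpace 𝕜] (y : 𝕜), ‖y‖ < 1 →
      HasSum (fun n => ((cnt B (n + 1) : 𝕜) - cnt B n) * y ^ (n + 1))
        (Phi B y - cnt B 0 - y * Phi B y) := by
    intro 𝕜 _ _ y hy
    have h0 := hasSum_cnt B hy
    have h1 := (hasSum_nat_add_iff' 1).mpr h0
    have h2 := h0.mul_left y
    have h3 := h1.sub h2
    convert! h3 using 1
    · funext n
      ring
    · simp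
  have hc := aux x hx
  have hrr := aux (‖x‖ : ℝ) hr
  have he : HasSum (fun n => if n ∈ Finset.range N0 then 2 * |d n| else 0)
      (∑ n ∈ Finset.range N0, 2 * |d n|) := by
    have := hasSum_sum_of_ne_finset_zero (L := SummationFilter.unconditional ℕ) (f := fun n => if n ∈ Finset.range N0 then 2 * |d n| else 0)
      (s := Finset.range N0) (fun b hb => by simp only [if_neg hb])
    convert! this using 1
    exact Finset.sum_congr rfl (fun n hn => by simp only [if_pos hn])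
  have hle := hc.norm_le_of_bounded (hrr.add he) (fun n => ?_)
  · have hz : (1 - x) * Phi B x = (Phi B x - cnt B 0 - x * Phi B x) + cnt B 0 := by ring
    calc ‖1 - x‖ * ‖Phi B x‖ = ‖(Phi B x - cnt B 0 - x * Phi B x) + cnt B 0‖ := by
          rw [← norm_mul, hz]
      _ ≤ ‖(Phi B x - cnt B 0 - x * Phi B x)‖ + ‖(cnt B 0 : ℂ)‖ := norm_add_le _ _
      _ ≤ _ := by
          have : ‖(cnt B 0 : ℂ)‖ = cnt B 0 := by simp
          rw [this]
          linarith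
  · have h1 : ‖((cnt B (n + 1) : ℂ) - cnt B n) * x ^ (n + 1)‖ = |d n| * ‖x‖ ^ (n + 1) := by
      rw [norm_mul, norm_pow]
      congr 1
      have : ((cnt B (n + 1) : ℂ) - cnt B n) = ((d n : ℝ) : ℂ) := by
        simp [hd]
      rw [this, Complex.norm_real, Real.norm_eq_abs]
    rw [h1]
    have hp : 0 ≤ ‖x‖ ^ (n + 1) := by positivity
    have hp1 : ‖x‖ ^ (n + 1) ≤ 1 := pow_le_one₀ (norm_nonneg _) hx.le
    by_cases hn : n ∈ Finset.range N0
    · simp only [if_pos hn]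
      change |d n| * ‖x‖ ^ (n + 1) ≤ d n * ‖x‖ ^ (n + 1) + 2 * |d n|
      nlinarith [neg_abs_le (d n), abs_nonneg (d n)]
    · simp only [if_neg hn]
      change |d n| * ‖x‖ ^ (n + 1) ≤ d n * ‖x‖ ^ (n + 1) + 0
      have : 0 ≤ d n := by
        simp only [Finset.mem_range, not_lt] at hn
        have := hm n hn
        simp only [hd, sub_nonneg]
        exact_mod_cast this
      rw [abs_of_nonneg this]
      linarith

lemma Phi_union {𝕜 : Type*} [NormedField 𝕜] [CompleteSpace 𝕜] {B1 B2 : Set ℕ}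
    (hd : Disjoint B1 B2) {x : 𝕜} (hx : ‖x‖ < 1) :
    Phi (B1 ∪ B2) x = Phi B1 x * Phi B2 x := by
  rw [Phi, Phi, Phi, ← (mult B1 hx).tprod_mul (mult B2 hx)]
  refine tprod_congr (fun a => ?_)
  by_cases h1 : a ∈ B1
  · have h2 : a ∉ B2 := Set.disjoint_left.mp hd h1
    simp [h1, h2]
  · by_cases h2 : a ∈ B2
    · simp [h1, h2]
    · simp [h1, h2]

lemma Phi_cast (B : Set ℕ) {r : ℝ} (h0 : 0 ≤ r) (h1 : r < 1) :
    ((Phi B r : ℝ) : ℂ) = Phi B (r : ℂ) := by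
  have hr : ‖r‖ < 1 := by rw [Real.norm_eq_abs, abs_of_nonneg h0]; exact h1
  have hrc : ‖(r : ℂ)‖ < 1 := by rwa [Complex.norm_real]
  have h := hasSum_cnt B hr
  have h2 := hasSum_cnt B hrc
  have h3 : HasSum (fun n => (((cnt B n : ℝ) * r ^ n : ℝ) : ℂ)) ((Phi B r : ℝ) : ℂ) :=
    Complex.hasSum_ofReal.mpr h
  refine h3.unique ?_
  convert! h2 using 1
  funext n
  push_cast
  rfl

lemma Phi_mul_root (B : Set ℕ) (r z : ℂ) (h : ∀ a ∈ B, z ^ a = 1) :
    Phi B (r * z) = Phi B r := by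
  refine tprod_congr (fun a => ?_)
  by_cases ha : a ∈ B
  · simp [ha, mul_pow, h a ha]
  · simp [ha]

lemma prod_roots {m a : ℕ} (hm : Odd m) (ha : Nat.Coprime a m) (y : ℂ) :
    ∏ z ∈ Polynomial.nthRootsFinset m (1 : ℂ), (1 + z ^ a * y) = 1 + y ^ m := by
  have hpos : 0 < m := hm.pos
  have hprim := Complex.isPrimitiveRoot_exp m hpos.ne'
  have h := hprim.pow_add_pow_eq_prod_add_mul (1 : ℂ) y hm
  rw [one_pow] at h
  rw [h]
  have hmaps : ∀ z ∈ Polynomial.nthRootsFinset m (1 : ℂ),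
      z ^ a ∈ Polynomial.nthRootsFinset m (1 : ℂ) := by
    intro z hz
    rw [Polynomial.mem_nthRootsFinset hpos] at hz ⊢
    rw [← pow_mul, mul_comm, pow_mul, hz, one_pow]
  have hinj : Set.InjOn (fun z : ℂ => z ^ a) (Polynomial.nthRootsFinset m (1 : ℂ)) := by
    intro z hz w hw hzw
    rw [Finset.mem_coe, Polynomial.mem_nthRootsFinset hpos] at hz hw
    have hw0 : w ≠ 0 := by
      rintro rfl
      rw [zero_pow hpos.ne'] at hw
      exact zero_ne_one hw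
    have h1 : (z / w) ^ m = 1 := by rw [div_pow, hz, hw, div_one]
    have h2 : (z / w) ^ a = 1 := by
      rw [div_pow]
      have : z ^ a = w ^ a := hzw
      rw [this, div_self (pow_ne_zero _ hw0)]
    have h3 := pow_gcd_eq_one.mpr ⟨h2, h1⟩
    rw [Nat.Coprime.gcd_eq_one ha, pow_one] at h3
    exact (div_eq_one_iff_eq hw0).mp h3
  exact Finset.prod_nbij (fun z => z ^ a) hmaps hinj
    (Finset.surjOn_of_injOn_of_card_le _ hmaps hinj le_rfl) (fun _ _ => rfl)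

lemma prod_Phi_roots {m : ℕ} (hm : Odd m) {P : Set ℕ} (hP : ∀ a ∈ P, Nat.Coprime a m)
    {r : ℂ} (hr : ‖r‖ < 1) :
    ∏ z ∈ Polynomial.nthRootsFinset m (1 : ℂ), Phi P (r * z) = Phi P (r ^ m) := by
  have hpos : 0 < m := hm.pos
  have hnorm : ∀ z ∈ Polynomial.nthRootsFinset m (1 : ℂ), ‖z‖ = 1 := by
    intro z hz
    rw [Polynomial.mem_nthRootsFinset hpos] at hz
    exact Complex.norm_eq_one_of_pow_eq_one hz hpos.ne'
  have hmul : ∀ z ∈ Polynomial.nthRootsFinset m (1 : ℂ),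
      Multipliable (fun a => (1 + P.indicator (fun a => (r * z) ^ a) a : ℂ)) := by
    intro z hz
    refine mult P ?_
    rw [norm_mul, hnorm z hz, mul_one]
    exact hr
  have h := Multipliable.tprod_finsetProd hmul
  have h2 : ∏ z ∈ Polynomial.nthRootsFinset m (1 : ℂ), Phi P (r * z) =
      ∏' a : ℕ, ∏ z ∈ Polynomial.nthRootsFinset m (1 : ℂ),
        (1 + P.indicator (fun a => (r * z) ^ a) a : ℂ) := h.symm
  rw [h2]
  refine tprod_congr (fun a => ?_)
  by_cases ha : a ∈ P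
  · simp only [Set.indicator_of_mem ha]
    have h3 := prod_roots hm (hP a ha) (r ^ a)
    rw [← pow_mul, mul_comm a m, pow_mul] at h3
    rw [← h3]
    refine Finset.prod_congr rfl (fun z _ => ?_)
    rw [mul_pow, mul_comm (r ^ a)]
  · simp [ha]

lemma one_le_Phi (B : Set ℕ) {r : ℝ} (h0 : 0 ≤ r) (h1 : r < 1) (U : Finset ℕ)
    (hU : (U : Set ℕ) ⊆ B) : ∏ a ∈ U, (1 + r ^ a) ≤ Phi B r := by
  have hr : ‖r‖ < 1 := by rw [Real.norm_eq_abs, abs_of_nonneg h0]; exact h1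
  have h := hasSum_finset B hr
  have hnn : ∀ a, 0 ≤ B.indicator (fun a => r ^ a) a := fun a =>
    Set.indicator_nonneg (fun _ _ => by positivity) a
  calc ∏ a ∈ U, (1 + r ^ a) = ∏ a ∈ U, (1 + B.indicator (fun a => r ^ a) a) := by
        refine Finset.prod_congr rfl (fun a ha => ?_)
        rw [Set.indicator_of_mem (hU (by exact_mod_cast ha))]
    _ = ∑ S ∈ U.powerset, ∏ a ∈ S, B.indicator (fun a => r ^ a) a := Finset.prod_one_add _
    _ ≤ Phi B r := sum_le_hasSum _ (fun S _ => Finset.prod_nonneg (fun a _ => hnn a)) h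

lemma Phi_mono (B : Set ℕ) {r s : ℝ} (h0 : 0 ≤ r) (h1 : r ≤ s) (h2 : s < 1) :
    Phi B r ≤ Phi B s := by
  have hr : ‖r‖ < 1 := by rw [Real.norm_eq_abs, abs_of_nonneg h0]; linarith
  have hs : ‖s‖ < 1 := by rw [Real.norm_eq_abs, abs_of_nonneg (by linarith)]; exact h2
  refine hasSum_le (fun n => ?_) (hasSum_cnt B hr) (hasSum_cnt B hs)
  gcongr

lemma one_le_Phi' (B : Set ℕ) {r : ℝ} (h0 : 0 ≤ r) (h1 : r < 1) : 1 ≤ Phi B r := by
  have := one_le_Phi B h0 h1 ∅ (by simp)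
  simpa using this

lemma key {m : ℕ} (hm : Odd m) (hm3 : 3 ≤ m) {BM P : Set ℕ}
    (hP : ∀ a ∈ P, Nat.Coprime a m) (hBM : ∀ a ∈ BM, m ∣ a)
    {N0 : ℕ} (hmono : ∀ n ≥ N0, cnt (BM ∪ P) n ≤ cnt (BM ∪ P) (n + 1)) :
    ∃ C : ℝ, 0 ≤ C ∧ ∀ r : ℝ, 0 ≤ r → r < 1 →
      Phi BM r ≤ Real.sqrt (Phi P r) * ((1 - r) * (Phi BM r * Phi P r) + C) := by
  obtain ⟨C, hC, hmain⟩ := main_ineq _ N0 hmono
  refine ⟨C, hC, fun r h0 h1 => ?_⟩
  have hpos : 0 < m := hm.pos
  have hdisj : Disjoint BM P := by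
    rw [Set.disjoint_left]
    intro a ha hb
    have h2 := hP a hb
    have h3 := hBM a ha
    have : m = 1 := by
      have := Nat.Coprime.eq_one_of_dvd h2.symm h3
      exact this
    omega
  set Z := Polynomial.nthRootsFinset m (1 : ℂ) with hZ
  have h1Z : (1 : ℂ) ∈ Z := Polynomial.one_mem_nthRootsFinset hpos
  have hrabs : ‖(r : ℝ)‖ < 1 := by rw [Real.norm_eq_abs, abs_of_nonneg h0]; exact h1
  have hrc : ‖(r : ℂ)‖ < 1 := by rwa [Complex.norm_real]
  have hrn : ‖(r : ℂ)‖ = r := by rw [Complex.norm_real, Real.norm_eq_abs, abs_of_nonneg h0]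
  have hnorm : ∀ z ∈ Z, ‖z‖ = 1 := by
    intro z hz
    rw [hZ, Polynomial.mem_nthRootsFinset hpos] at hz
    exact Complex.norm_eq_one_of_pow_eq_one hz hpos.ne'
  have hbpos : 0 < Phi BM r := lt_of_lt_of_le one_pos (one_le_Phi' BM h0 h1)
  have hPpos : 0 < Phi P r := lt_of_lt_of_le one_pos (one_le_Phi' P h0 h1)
  set X : ℝ := (1 - r) * (Phi BM r * Phi P r) + C with hX
  have hXnn : 0 ≤ X := by
    have : 0 ≤ 1 - r := by linarith
    positivity
  -- the inequality at each root of unity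
  have hz : ∀ z ∈ Z, ‖1 - (r : ℂ) * z‖ * (Phi BM r * ‖Phi P ((r : ℂ) * z)‖) ≤ X := by
    intro z hz
    have hn : ‖(r : ℂ) * z‖ = r := by rw [norm_mul, hnorm z hz, mul_one, hrn]
    have hlt : ‖(r : ℂ) * z‖ < 1 := by rw [hn]; exact h1
    have h := hmain ((r : ℂ) * z) hlt
    rw [hn, Phi_union hdisj hlt, Phi_union hdisj hrabs] at h
    have h2 : Phi BM ((r : ℂ) * z) = Phi BM (r : ℂ) := by
      refine Phi_mul_root BM _ _ (fun a ha => ?_)
      obtain ⟨k, rfl⟩ := hBM a ha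
      rw [hZ, Polynomial.mem_nthRootsFinset hpos] at hz
      rw [pow_mul, hz, one_pow]
    rw [h2, ← Phi_cast BM h0 h1, norm_mul, Complex.norm_real, Real.norm_eq_abs,
      abs_of_pos hbpos] at h
    exact h
  -- products
  have hp1 : ∏ z ∈ Z, ‖1 - (r : ℂ) * z‖ = 1 - r ^ m := by
    have hprim := Complex.isPrimitiveRoot_exp m hpos.ne'
    have h := hprim.pow_sub_pow_eq_prod_sub_mul (1 : ℂ) (r : ℂ) hpos
    have h2 : ∏ z ∈ Z, ‖1 - (r : ℂ) * z‖ = ‖∏ z ∈ Z, (1 - z * (r : ℂ))‖ := by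
      rw [norm_prod]
      refine Finset.prod_congr rfl (fun z _ => by rw [mul_comm])
    rw [h2, ← h, one_pow]
    have h3 : (1 : ℂ) - (r : ℂ) ^ m = ((1 - r ^ m : ℝ) : ℂ) := by push_cast; rfl
    rw [h3, Complex.norm_real, Real.norm_eq_abs, abs_of_nonneg]
    have : r ^ m ≤ 1 := pow_le_one₀ h0 h1.le
    linarith
  have hp2 : 1 ≤ ∏ z ∈ Z, ‖Phi P ((r : ℂ) * z)‖ := by
    rw [← norm_prod, prod_Phi_roots hm hP hrc]
    have h3 : Phi P ((r : ℂ) ^ m) = ((Phi P (r ^ m : ℝ) : ℝ) : ℂ) := by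
      rw [Phi_cast P (pow_nonneg h0 m) (pow_lt_one₀ h0 h1 hpos.ne')]
      push_cast
      rfl
    rw [h3, Complex.norm_real, Real.norm_eq_abs]
    exact le_trans (one_le_Phi' P (pow_nonneg h0 m) (pow_lt_one₀ h0 h1 hpos.ne')) (le_abs_self _)
  have hp1' : 1 ≤ ∏ z ∈ Z.erase 1, ‖1 - (r : ℂ) * z‖ := by
    have h := Finset.mul_prod_erase Z (fun z => ‖1 - (r : ℂ) * z‖) h1Z
    rw [hp1] at h
    have h4 : ‖1 - (r : ℂ) * 1‖ = 1 - r := by
      have h3 : (1 : ℂ) - (r : ℂ) * 1 = ((1 - r : ℝ) : ℂ) := by push_cast; ring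
      rw [h3, Complex.norm_real, Real.norm_eq_abs, abs_of_nonneg (by linarith)]
    simp only [h4] at h
    have h5 : r ^ m ≤ r := by
      calc r ^ m ≤ r ^ 1 := pow_le_pow_of_le_one h0 h1.le hpos
        _ = r := pow_one r
    have h6 : 0 < 1 - r := by linarith
    by_contra hcon
    push Not at hcon
    nlinarith
  have hp2' : 1 ≤ Phi P r * ∏ z ∈ Z.erase 1, ‖Phi P ((r : ℂ) * z)‖ := by
    have h := Finset.mul_prod_erase Z (fun z => ‖Phi P ((r : ℂ) * z)‖) h1Z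
    have h4 : ‖Phi P ((r : ℂ) * 1)‖ = Phi P r := by
      rw [mul_one, ← Phi_cast P h0 h1, Complex.norm_real, Real.norm_eq_abs, abs_of_pos hPpos]
    simp only [h4] at h
    rw [h]
    exact hp2
  have hcard : (Z.erase 1).card = m - 1 := by
    rw [Finset.card_erase_of_mem h1Z, hZ,
      (Complex.isPrimitiveRoot_exp m hpos.ne').card_nthRootsFinset]
  have hprod : ∏ z ∈ Z.erase 1, (‖1 - (r : ℂ) * z‖ * (Phi BM r * ‖Phi P ((r : ℂ) * z)‖)) ≤
      X ^ (m - 1) := by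
    rw [← hcard, ← Finset.prod_const]
    refine Finset.prod_le_prod (fun z _ => by positivity) (fun z hz' => ?_)
    exact hz z (Finset.mem_of_mem_erase hz')
  rw [Finset.prod_mul_distrib, Finset.prod_mul_distrib, Finset.prod_const, hcard] at hprod
  have hbk : Phi BM r ^ (m - 1) ≤ Phi P r * X ^ (m - 1) := by
    have hA : 0 < Phi BM r ^ (m - 1) := pow_pos hbpos _
    set a1 := ∏ z ∈ Z.erase 1, ‖1 - (r : ℂ) * z‖
    set a2 := ∏ z ∈ Z.erase 1, ‖Phi P ((r : ℂ) * z)‖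
    have ha2 : 0 ≤ a2 := Finset.prod_nonneg (fun _ _ => norm_nonneg _)
    calc Phi BM r ^ (m - 1) = Phi BM r ^ (m - 1) * 1 := (mul_one _).symm
      _ ≤ Phi BM r ^ (m - 1) * (Phi P r * a2) := by gcongr
      _ = Phi P r * (1 * (Phi BM r ^ (m - 1) * a2)) := by ring
      _ ≤ Phi P r * (a1 * (Phi BM r ^ (m - 1) * a2)) := by gcongr
      _ ≤ Phi P r * X ^ (m - 1) := by gcongr
  have hsq1 : 1 ≤ Real.sqrt (Phi P r) := by
    rw [Real.one_le_sqrt]
    exact one_le_Phi' P h0 h1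
  have hsq : Phi P r ≤ Real.sqrt (Phi P r) ^ (m - 1) := by
    calc Phi P r = Real.sqrt (Phi P r) ^ 2 := (Real.sq_sqrt hPpos.le).symm
      _ ≤ Real.sqrt (Phi P r) ^ (m - 1) := pow_le_pow_right₀ hsq1 (by omega)
  have hfin : Phi BM r ^ (m - 1) ≤ (Real.sqrt (Phi P r) * X) ^ (m - 1) := by
    rw [mul_pow]
    exact le_trans hbk (by gcongr)
  exact le_of_pow_le_pow_left₀ (by omega) (by positivity) hfin

/-- powers of `g` -/
def Pw (g : ℕ) : Set ℕ := {a | ∃ α : ℕ, a = g ^ α}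

lemma Phi_Pw {g : ℕ} (hg : 2 ≤ g) (r : ℝ) :
    Phi (Pw g) r = ∏' α : ℕ, (1 + r ^ (g ^ α)) := by
  have hinj : Function.Injective (fun α : ℕ => g ^ α) := Nat.pow_right_injective hg
  have h := hinj.tprod_eq (f := fun a : ℕ => (1 + (Pw g).indicator (fun a => r ^ a) a)) ?_
  · rw [Phi, ← h]
    refine tprod_congr (fun α => ?_)
    rw [Set.indicator_of_mem (show g ^ α ∈ Pw g from ⟨α, rfl⟩)]
  · intro a ha
    by_contra hcon
    apply ha
    have : a ∉ Pw g := by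
      rintro ⟨α, rfl⟩
      exact hcon ⟨α, rfl⟩
    simp [this]

lemma Phi_Pw_le {g : ℕ} (hg : 2 ≤ g) {r : ℝ} (h0 : 0 ≤ r) (h1 : r < 1) (K : ℕ)
    (hK : r ^ (g ^ K) ≤ 1 / 2) :
    Phi (Pw g) r ≤ 2 ^ K * Phi (Pw g) (1 / 2 : ℝ) := by
  have hrK0 : 0 ≤ r ^ (g ^ K) := pow_nonneg h0 _
  have hrK1 : r ^ (g ^ K) < 1 := by linarith
  have hmulti : Multipliable (fun α : ℕ => (1 + r ^ (g ^ (α + K)))) := by
    have hr : ‖r ^ (g ^ K)‖ < 1 := by rw [Real.norm_eq_abs, abs_of_nonneg hrK0]; exact hrK1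
    have hs : Summable (fun α : ℕ => ‖r ^ (g ^ (α + K))‖) := by
      have hgeo := summable_geometric_of_lt_one (norm_nonneg _) hr
      have hinj : Function.Injective (fun α : ℕ => g ^ α) := Nat.pow_right_injective hg
      have := hgeo.comp_injective hinj
      convert! this using 1
      funext α
      simp only [Function.comp]
      rw [← norm_pow, ← pow_mul]
      congr 2
      ring
    exact multipliable_one_add_of_summable hs
  have h := hmulti.prod_mul_tprod_nat_mul' (f := fun α : ℕ => (1 + r ^ (g ^ α)))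
  rw [Phi_Pw hg, ← h]
  have h2 : ∏' α : ℕ, (1 + r ^ (g ^ (α + K))) = Phi (Pw g) (r ^ (g ^ K)) := by
    rw [Phi_Pw hg]
    refine tprod_congr (fun α => ?_)
    rw [← pow_mul]
    congr 2
    ring
  rw [h2]
  have h3 : ∏ i ∈ Finset.range K, (1 + r ^ (g ^ i)) ≤ 2 ^ K := by
    calc ∏ i ∈ Finset.range K, (1 + r ^ (g ^ i)) ≤ ∏ i ∈ Finset.range K, (2 : ℝ) := by
          refine Finset.prod_le_prod (fun i _ => by positivity) (fun i _ => ?_)
          have : r ^ (g ^ i) ≤ 1 := pow_le_one₀ h0 h1.le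
          linarith
      _ = 2 ^ K := by simp
  have h4 : Phi (Pw g) (r ^ (g ^ K)) ≤ Phi (Pw g) (1 / 2 : ℝ) :=
    Phi_mono _ hrK0 hK (by norm_num)
  have h5 : 0 ≤ Phi (Pw g) (r ^ (g ^ K)) := le_trans zero_le_one (one_le_Phi' _ hrK0 hrK1)
  gcongr

lemma Phi_lower {g m s : ℕ} (hg : 2 ≤ g) (hm : 1 ≤ m) (hs : 2 * m ≤ g ^ s) {BM : Set ℕ}
    (hBM : ∀ α, m * g ^ α ∈ BM) {K : ℕ} (hK : s ≤ K) {r : ℝ} (hr : r = 1 - 1 / (g : ℝ) ^ K) :
    (3 / 2 : ℝ) ^ (K - s) ≤ Phi BM r := by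
  have hgK : (1 : ℝ) ≤ (g : ℝ) ^ K := one_le_pow₀ (by exact_mod_cast (by omega : 1 ≤ g))
  have hgKpos : (0 : ℝ) < (g : ℝ) ^ K := by linarith
  have h0 : 0 ≤ r := by
    rw [hr, sub_nonneg, div_le_one hgKpos]
    exact hgK
  have h1 : r < 1 := by
    rw [hr]
    have : 0 < 1 / (g : ℝ) ^ K := by positivity
    linarith
  have hinj : Function.Injective (fun α : ℕ => m * g ^ α) := by
    intro a b hab
    have : g ^ a = g ^ b := Nat.eq_of_mul_eq_mul_left (by omega) hab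
    exact Nat.pow_right_injective hg this
  set U : Finset ℕ := (Finset.range (K - s)).image (fun α => m * g ^ α) with hU
  have hsub : (U : Set ℕ) ⊆ BM := by
    intro a ha
    rw [hU] at ha
    simp only [Finset.coe_image, Finset.coe_range, Set.mem_image] at ha
    obtain ⟨α, _, rfl⟩ := ha
    exact hBM α
  refine le_trans ?_ (one_le_Phi BM h0 h1 U hsub)
  rw [hU, Finset.prod_image (fun a _ b _ h => hinj h)]
  calc (3 / 2 : ℝ) ^ (K - s) = ∏ α ∈ Finset.range (K - s), (3 / 2 : ℝ) := by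
        rw [Finset.prod_const, Finset.card_range]
    _ ≤ ∏ α ∈ Finset.range (K - s), (1 + r ^ (m * g ^ α)) := by
        refine Finset.prod_le_prod (fun _ _ => by norm_num) (fun α hα => ?_)
        have hα' : α < K - s := Finset.mem_range.mp hα
        have hle : 2 * (m * g ^ α) ≤ g ^ K := by
          calc 2 * (m * g ^ α) = (2 * m) * g ^ α := by ring
            _ ≤ g ^ s * g ^ α := Nat.mul_le_mul_right _ hs
            _ = g ^ (s + α) := by rw [pow_add]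
            _ ≤ g ^ K := Nat.pow_le_pow_right (by omega) (by omega)
        have hleR : 2 * ((m * g ^ α : ℕ) : ℝ) ≤ (g : ℝ) ^ K := by exact_mod_cast hle
        have hbern := one_add_mul_le_pow (a := -(1 / (g : ℝ) ^ K)) (by
          have : 1 / (g : ℝ) ^ K ≤ 1 := by rw [div_le_one hgKpos]; exact hgK
          linarith) (m * g ^ α)
        have hr' : r = 1 + -(1 / (g : ℝ) ^ K) := by rw [hr]; ring
        rw [← hr'] at hbern
        have h6 : ((m * g ^ α : ℕ) : ℝ) * (1 / (g : ℝ) ^ K) ≤ 1 / 2 := by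
          rw [mul_one_div, div_le_iff₀ hgKpos]
          linarith
        linarith

lemma contra {m g : ℕ} (hm : Odd m) (hm3 : 3 ≤ m) (hg3 : 3 ≤ g) {BM : Set ℕ}
    (hcop : Nat.Coprime g m) (hBM : ∀ a ∈ BM, m ∣ a) (hBM' : ∀ α, m * g ^ α ∈ BM)
    {N0 : ℕ} (hmono : ∀ n ≥ N0, cnt (BM ∪ Pw g) n ≤ cnt (BM ∪ Pw g) (n + 1)) : False := by
  have hg : 2 ≤ g := by omega
  have hP : ∀ a ∈ Pw g, Nat.Coprime a m := by
    rintro a ⟨α, rfl⟩
    exact hcop.pow_left α
  obtain ⟨C, hC, hkey⟩ := key hm hm3 hP hBM hmono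
  set D : ℝ := Phi (Pw g) (1 / 2 : ℝ) with hD
  have hD1 : 1 ≤ D := one_le_Phi' _ (by norm_num) (by norm_num)
  obtain ⟨s, hs⟩ : ∃ s : ℕ, 2 * m ≤ g ^ s :=
    ⟨2 * m, (Nat.lt_pow_self (by omega)).le⟩
  have hsqrt2 : Real.sqrt 2 < 3 / 2 := by
    rw [Real.sqrt_lt' (by norm_num)]
    norm_num
  have hsqrt2pos : 0 < Real.sqrt 2 := Real.sqrt_pos.mpr (by norm_num)
  have hsq2 : Real.sqrt 2 ^ 2 = 2 := Real.sq_sqrt (by norm_num)
  -- ratio 1: (sqrt 2)^3 / 3 < 1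
  have hr1 : Real.sqrt 2 ^ 3 / 3 < 1 := by
    rw [div_lt_one (by norm_num)]
    have : Real.sqrt 2 ^ 3 = 2 * Real.sqrt 2 := by rw [pow_succ, hsq2]
    rw [this]
    linarith
  have ht1 : Filter.Tendsto (fun K : ℕ => Real.sqrt D ^ 3 * (Real.sqrt 2 ^ 3 / 3) ^ K)
      Filter.atTop (nhds (Real.sqrt D ^ 3 * 0)) :=
    (tendsto_pow_atTop_nhds_zero_of_lt_one (by positivity) hr1).const_mul _
  have ht2 : Filter.Tendsto (fun K : ℕ => (2 * C * Real.sqrt D * (3 / 2) ^ s) *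
      (Real.sqrt 2 / (3 / 2)) ^ K) Filter.atTop
      (nhds ((2 * C * Real.sqrt D * (3 / 2) ^ s) * 0)) :=
    (tendsto_pow_atTop_nhds_zero_of_lt_one (by positivity)
      (by rw [div_lt_one (by norm_num)]; exact hsqrt2)).const_mul _
  rw [mul_zero] at ht1 ht2
  have he1 := ht1.eventually_le_const (show (0 : ℝ) < 1 / 2 by norm_num)
  have he2 := ht2.eventually_lt_const (show (0 : ℝ) < 1 by norm_num)
  obtain ⟨K, hK1, hK2, hKs⟩ := (he1.and (he2.and (Filter.eventually_ge_atTop (max s 1)))).exists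
  have hKs' : s ≤ K := le_trans (le_max_left _ _) hKs
  have hK1' : 1 ≤ K := le_trans (le_max_right _ _) hKs
  have hgK : (1 : ℝ) ≤ (g : ℝ) ^ K := one_le_pow₀ (by exact_mod_cast (by omega : 1 ≤ g))
  have hgKpos : (0 : ℝ) < (g : ℝ) ^ K := by linarith
  set r : ℝ := 1 - 1 / (g : ℝ) ^ K with hr
  have h0 : 0 ≤ r := by
    rw [hr, sub_nonneg, div_le_one hgKpos]
    exact hgK
  have h1 : r < 1 := by
    rw [hr]
    have : 0 < 1 / (g : ℝ) ^ K := by positivity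
    linarith
  have hrK : r ^ (g ^ K) ≤ 1 / 2 := by
    have h2 : r ≤ Real.exp (-(1 / (g : ℝ) ^ K)) := by
      have := Real.add_one_le_exp (-(1 / (g : ℝ) ^ K))
      rw [hr]
      linarith
    calc r ^ (g ^ K) ≤ Real.exp (-(1 / (g : ℝ) ^ K)) ^ (g ^ K) := pow_le_pow_left₀ h0 h2 _
      _ = Real.exp (-1) := by
          rw [← Real.exp_nat_mul]
          congr 1
          push_cast
          field_simp
      _ ≤ 1 / 2 := by
          rw [Real.exp_neg, one_div]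
          apply inv_anti₀ (by norm_num)
          have := Real.add_one_le_exp (1 : ℝ)
          linarith
  have hQ := Phi_Pw_le hg h0 h1 K hrK
  rw [← hD] at hQ
  have hlow := Phi_lower hg (by omega) hs hBM' hKs' hr
  have hk := hkey r h0 h1
  set b := Phi BM r with hb
  set Q := Phi (Pw g) r with hQdef
  have hQ1 : 1 ≤ Q := one_le_Phi' _ h0 h1
  have hb1 : 1 ≤ b := one_le_Phi' _ h0 h1
  set u : ℝ := Real.sqrt D * Real.sqrt 2 ^ K with hu
  have hu2 : u ^ 2 = 2 ^ K * D := by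
    rw [hu, mul_pow, Real.sq_sqrt (by linarith), ← pow_mul, mul_comm K 2, pow_mul, hsq2]
    ring
  have hupos : 0 < u := by
    have : 0 < Real.sqrt D := Real.sqrt_pos.mpr (by linarith)
    positivity
  have hsQ : Real.sqrt Q ≤ u := by
    rw [Real.sqrt_le_left hupos.le, hu2]
    exact hQ
  have h1r : 1 - r = 1 / (g : ℝ) ^ K := by rw [hr]; ring
  have h1r3 : 1 - r ≤ 1 / (3 : ℝ) ^ K := by
    rw [h1r]
    apply one_div_le_one_div_of_le (by positivity)
    exact pow_le_pow_left₀ (by norm_num) (by exact_mod_cast hg3) _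
  have h1rnn : 0 ≤ 1 - r := by linarith
  have hmain : b ≤ u * (1 / (3 : ℝ) ^ K * (b * u ^ 2) + C) := by
    refine le_trans hk ?_
    have hQu : Q ≤ u ^ 2 := by rw [hu2]; exact hQ
    gcongr
  have hu3 : u ^ 3 * (1 / (3 : ℝ) ^ K) = Real.sqrt D ^ 3 * (Real.sqrt 2 ^ 3 / 3) ^ K := by
    rw [hu, mul_pow, div_pow, ← pow_mul, ← pow_mul, mul_comm K 3]
    ring
  have hhalf : b ≤ b * (1 / 2) + u * C := by
    calc b ≤ u * (1 / (3 : ℝ) ^ K * (b * u ^ 2) + C) := hmain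
      _ = b * (u ^ 3 * (1 / (3 : ℝ) ^ K)) + u * C := by ring
      _ ≤ b * (1 / 2) + u * C := by
          rw [hu3]
          gcongr
  have hb2 : b ≤ 2 * C * u := by linarith
  have hcontra : (2 * C * Real.sqrt D * (3 / 2) ^ s) * (Real.sqrt 2 / (3 / 2)) ^ K =
      2 * C * u / (3 / 2 : ℝ) ^ (K - s) := by
    have : (3 / 2 : ℝ) ^ K = (3 / 2) ^ (K - s) * (3 / 2) ^ s := by
      rw [← pow_add]
      congr 1
      omega
    rw [hu, div_pow (Real.sqrt 2) (3 / 2 : ℝ) K, this]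
    generalize (3 / 2 : ℝ) ^ (K - s) = t1 at *
    generalize ht : (3 / 2 : ℝ) ^ s = t2 at *
    have : t2 ≠ 0 := by rw [← ht]; positivity
    field_simp
  rw [hcontra, div_lt_one (by positivity)] at hK2
  linarith

lemma A_eq (m g : ℕ) :
    A m g = {a | ∃ α β : ℕ, a = m ^ (β + 1) * g ^ α} ∪ Pw g := by
  ext a
  constructor
  · rintro ⟨α, β, rfl⟩
    cases α with
    | zero => exact Or.inr ⟨β, by simp⟩
    | succ α => exact Or.inl ⟨β, α, rfl⟩
  · rintro (⟨α, β, rfl⟩ | ⟨α, rfl⟩)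
    · exact ⟨β + 1, α, rfl⟩
    · exact ⟨0, α, by simp⟩

lemma A_comm (m g : ℕ) : A m g = A g m := by
  ext a
  constructor
  · rintro ⟨α, β, rfl⟩
    exact ⟨β, α, mul_comm _ _⟩
  · rintro ⟨α, β, rfl⟩
    exact ⟨β, α, mul_comm _ _⟩

lemma not_mono {m g : ℕ} (hm : Odd m) (hm3 : 3 ≤ m) (hg3 : 3 ≤ g) (hcop : Nat.Coprime g m)
    (N0 : ℕ) : ∃ n ≥ N0, cnt (A m g) (n + 1) < cnt (A m g) n := by
  by_contra hcon
  push Not at hcon
  rw [A_eq] at hcon
  refine contra hm hm3 hg3 hcop (BM := {a | ∃ α β : ℕ, a = m ^ (β + 1) * g ^ α}) ?_ ?_ hcon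
  · rintro a ⟨α, β, rfl⟩
    exact Dvd.dvd.mul_right (dvd_pow_self m (by omega)) _
  · intro α
    exact ⟨α, 0, by simp⟩

theorem desc_io {p q : ℕ} (hp : 2 < p) (hpq : p < q) (hcop : Nat.Coprime p q) (N0 : ℕ) :
    ∃ n ≥ N0, cnt (A p q) (n + 1) < cnt (A p q) n := by
  rcases Nat.even_or_odd q with he | ho
  · have hpo : Odd p := by
      rw [← Nat.not_even_iff_odd]
      intro hpe
      have := Nat.dvd_gcd hpe.two_dvd he.two_dvd
      rw [hcop.gcd_eq_one] at this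
      omega
    exact not_mono hpo (by omega) (by omega) hcop.symm N0
  · rw [A_comm]
    exact not_mono ho (by omega) (by omega) hcop N0

end Pool.Agent.Helper55.SignChangesAux
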